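import Mathlib

/-!
# Achievement sets are regularly closed or nowhere dense

If `E(v)` has interior points then, by the Baire category theorem, so has the achievement set of
every tail of the series; these sets have small diameter, and `E(v)` is a union of translates
of them.
-/

open Set Filter Topology

namespace Pool.Agent.Results.MP_69f3e4_an.RegularlyClosed

variable {V : Type*} [NormedAddCommGroup V]

/-- The subsum of the series `v` selected by the 0-1 sequence `ε`. -/
noncomputable def subsum (v : ℕ → V) (ε : ℕ → Bool) : V := ∑' n, if ε n = true then v n else 0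

/-- The achievement set `E(v)` of the series `v`. -/
noncomputable def achievement (v : ℕ → V) : Set V := range (subsum v)

/-- `F` is regularly closed: it is the closure of its interior. -/
def IsRegularlyClosed (F : Set V) : Prop := F = closure (interior F)

lemma norm_term_le (v : ℕ → V) (ε : ℕ → Bool) (n : ℕ) :
    ‖(if ε n = true then v n else 0)‖ ≤ ‖v n‖ := by
  split_ifs
  · exact le_rfl
  · rw [norm_zero]; exact norm_nonneg _

section complete

variable [CompleteSpace V]

lemma summable_term {v : ℕ → V} (hv : Summable fun n => ‖v n‖) (ε : ℕ → Bool) :
    Summable fun n => if ε n = true then v n else 0 :=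
  Summable.of_norm_bounded hv (norm_term_le v ε)

lemma continuous_subsum {v : ℕ → V} (hv : Summable fun n => ‖v n‖) : Continuous (subsum v) := by
  unfold subsum
  refine continuous_tsum (fun n => ?_) hv fun n ε => norm_term_le v ε n
  exact (continuous_of_discreteTopology (f := fun b : Bool => if b = true then v n else 0)).comp
    (continuous_apply n)

lemma isCompact_achievement {v : ℕ → V} (hv : Summable fun n => ‖v n‖) :
    IsCompact (achievement v) := by
  unfold achievement
  rw [← image_univ]
  exact isCompact_univ.image (continuous_subsum hv)

/-- split off the first `n` terms -/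
lemma subsum_split {v : ℕ → V} (hv : Summable fun n => ‖v n‖) (n : ℕ) (ε : ℕ → Bool) :
    subsum v ε = (∑ k ∈ Finset.range n, if ε k = true then v k else 0) +
      subsum (fun k => v (k + n)) (fun k => ε (k + n)) :=
  ((summable_term hv ε).sum_add_tsum_nat_add n).symm

omit [CompleteSpace V] in
lemma norm_subsum_le {v : ℕ → V} (hv : Summable fun n => ‖v n‖) (ε : ℕ → Bool) :
    ‖subsum v ε‖ ≤ ∑' n, ‖v n‖ :=
  tsum_of_norm_bounded hv.hasSum (norm_term_le v ε)

/-- **Every achievement set is regularly closed or nowhere dense** (for absolutely summable series
in the plane, and in any complete normed space). -/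
theorem result (v : ℕ → V) (hv : Summable fun n => ‖v n‖) :
    IsRegularlyClosed (achievement v) ∨ IsNowhereDense (achievement v) := by
  have hcomp := isCompact_achievement hv
  have hclosed := hcomp.isClosed
  by_cases hint : interior (achievement v) = ∅
  · right
    unfold IsNowhereDense
    rw [hclosed.closure_eq]
    exact hint
  left
  have hvt : ∀ n, Summable fun k => ‖v (k + n)‖ := fun n => (summable_nat_add_iff n).2 hv
  -- the tails have interior points
  have htail : ∀ n, (interior (achievement fun k => v (k + n))).Nonempty := by
    intro n
    by_contra hne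
    rw [not_nonempty_iff_eq_empty] at hne
    -- the finite sums
    obtain ⟨fs, hfs⟩ : ∃ fs : (Fin n → Bool) → V, fs = fun δ =>
      ∑ k : Fin n, if δ k = true then v k else 0 := ⟨_, rfl⟩
    have hcover : achievement v ⊆ ⋃ δ : Fin n → Bool,
        (fun z => fs δ + z) '' (achievement fun k => v (k + n)) := by
      rintro _ ⟨ε, rfl⟩
      refine mem_iUnion.2 ⟨fun k => ε k, subsum (fun k => v (k + n)) (fun k => ε (k + n)),
        ⟨_, rfl⟩, ?_⟩
      rw [subsum_split hv n ε, hfs]
      simp only
      rw [← Fin.sum_univ_eq_sum_range (fun k => if ε k = true then v k else 0) n]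
    have hnd : ∀ δ : Fin n → Bool,
        IsNowhereDense ((fun z => fs δ + z) '' (achievement fun k => v (k + n))) := by
      intro δ
      have hcl : IsClosed ((fun z => fs δ + z) '' (achievement fun k => v (k + n))) :=
        ((isCompact_achievement (hvt n)).image (continuous_const.add continuous_id)).isClosed
      unfold IsNowhereDense
      rw [hcl.closure_eq]
      have h1 : interior ((Homeomorph.addLeft (fs δ)) '' (achievement fun k => v (k + n))) =
          (Homeomorph.addLeft (fs δ)) '' interior (achievement fun k => v (k + n)) :=
        ((Homeomorph.addLeft (fs δ)).image_interior _).symm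
      rw [hne, image_empty] at h1
      exact h1
    have hU : IsNowhereDense (⋃ δ : Fin n → Bool,
        (fun z => fs δ + z) '' (achievement fun k => v (k + n))) := by
      have hcl : IsClosed (⋃ δ : Fin n → Bool,
          (fun z => fs δ + z) '' (achievement fun k => v (k + n))) :=
        isClosed_iUnion_of_finite fun δ =>
          ((isCompact_achievement (hvt n)).image (continuous_const.add continuous_id)).isClosed
      unfold IsNowhereDense
      rw [hcl.closure_eq]
      by_contra hne2
      have hne3 := nonempty_iff_ne_empty.2 hne2
      have hmeagre : IsMeagre (⋃ δ : Fin n → Bool,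
          (fun z => fs δ + z) '' (achievement fun k => v (k + n))) :=
        isMeagre_iUnion fun δ => (hnd δ).isMeagre
      have h2 := (hmeagre.mono interior_subset)
      exact not_isMeagre_of_isOpen isOpen_interior hne3 h2
    apply hint
    have h3 := interior_mono hcover
    have h4 : interior (⋃ δ : Fin n → Bool,
        (fun z => fs δ + z) '' (achievement fun k => v (k + n))) = ∅ := by
      have h5 := hU
      unfold IsNowhereDense at h5
      exact subset_empty_iff.1 ((interior_mono subset_closure).trans h5.subset)
    rw [h4] at h3
    exact subset_empty_iff.1 h3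
  refine subset_antisymm ?_ (closure_minimal interior_subset hclosed)
  rintro _ ⟨ε, rfl⟩
  rw [Metric.mem_closure_iff]
  intro r hr
  have hlim := tendsto_sum_nat_add fun k => ‖v k‖
  obtain ⟨n, hn⟩ := (hlim.eventually (gt_mem_nhds (show (0 : ℝ) < r / 2 by positivity))).exists
  obtain ⟨w, hw⟩ := htail n
  have hwE : w ∈ achievement fun k => v (k + n) := interior_subset hw
  obtain ⟨ε', rfl⟩ := hwE
  obtain ⟨a, ha⟩ : ∃ a : V, a = ∑ k ∈ Finset.range n, if ε k = true then v k else 0 := ⟨_, rfl⟩
  refine ⟨a + subsum (fun k => v (k + n)) ε', ?_, ?_⟩
  · have hsub : (Homeomorph.addLeft a) '' (achievement fun k => v (k + n)) ⊆ achievement v := by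
      rintro _ ⟨_, ⟨η, rfl⟩, rfl⟩
      refine ⟨fun k => if k < n then ε k else η (k - n), ?_⟩
      rw [subsum_split hv n]
      simp only [Homeomorph.coe_addLeft]
      congr 1
      · rw [ha]
        refine Finset.sum_congr rfl fun k hk => ?_
        rw [Finset.mem_range] at hk
        simp [hk]
      · congr 1
        funext k
        simp
    have h1 := interior_mono hsub
    apply h1
    rw [← Homeomorph.image_interior]
    exact ⟨_, hw, rfl⟩
  · rw [subsum_split hv n ε, ← ha, dist_add_left, dist_eq_norm]
    have h1 := norm_subsum_le (hvt n) (fun k => ε (k + n))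
    have h2 := norm_subsum_le (hvt n) ε'
    have h3 := norm_sub_le (subsum (fun k => v (k + n)) fun k => ε (k + n))
      (subsum (fun k => v (k + n)) ε')
    linarith

end complete

end Pool.Agent.Results.MP_69f3e4_an.RegularlyClosed
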